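import Pool.Agent.V11252.SAW.Poly

/-!
# Self-avoiding polygons pulled in the horizontal direction

The uniform self-avoiding polygon with perimeter `2 n` is pulled with a force `f ≥ 0`, that is,
weighted by `exp (f w)`, `w` its width.  Let `Λ` be the free energy of the self-avoiding walk pulled
at its end point.

(1) The polygon under the force `f` has, per step, the free energy of the walk under the force `f / 2`:
its normalised partition function is `exp (2 n Λ (f / 2) ± (f + K (log n)^2))`, with one constant for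
all forces and all lengths, and the mean width `W_n (f)` under the force `f` satisfies
`2 n Λ (f / 2) - f - K (log n)^2 ≤ f W_n (f) ≤ 2 n (Λ (f) - Λ (f / 2)) + 3 f + K (log n)^2`.

(2) Each half of the width exponent `θ` of the polygons without force (at stretched exponential
precision) is equivalent to the same half of `Λ (f) = f ^ (1 / θ + o(1))` for small forces, and it
implies the same half of the scaling law `W_n (f) = n f ^ (1 / θ - 1 + o(1))` for the width of the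
pulled polygons (`f ^ (1 / 3)` for the conjectured exponent `θ = 3/4`), as soon as
`n ≥ f ^ (- 1 / θ - ε)`.

The proof uses the large deviations of the width of the polygons (`Pool.Agent.Y981.L2.PolyE`, the
library behind the starting result `PolygonWidthLawLogTwo`), summed over all widths by Legendre duality,
and convexity.
-/

set_option autoImplicit false

namespace Pool.Agent.Results.MP_c23e5f_co.PulledPolygons

open Filter Topology
open Pool.Agent

/-- a closed nearest-neighbour loop on `ℤ²` with `m` steps, rooted at the origin and oriented,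
that visits no vertex twice -/
def IsLoop (m : ℕ) (g : ZMod m → ℤ × ℤ) : Prop :=
  g 0 = 0 ∧ Function.Injective g ∧
    ∀ i : ZMod m, |(g (i + 1)).1 - (g i).1| + |(g (i + 1)).2 - (g i).2| = 1

/-- the width (horizontal extent) of a loop -/
noncomputable def width (m : ℕ) (g : ZMod m → ℤ × ℤ) : ℕ :=
  sSup {w : ℕ | ∃ i j, w = ((g i).1 - (g j).1).natAbs}

/-- the loops of length `2 n`; every polygon with perimeter `2 n` (up to translation) corresponds to
exactly `4 n` of them, so that the uniform loop is the uniform polygon -/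
def Lp (n : ℕ) : Set (ZMod (2 * n) → ℤ × ℤ) := {g | IsLoop (2 * n) g}

/-- the proportion of the self-avoiding polygons of perimeter `2 n` with width at least `r` -/
noncomputable def wide (n : ℕ) (r : ℝ) : ℝ :=
  ({g : ZMod (2 * n) → ℤ × ℤ | IsLoop (2 * n) g ∧ r ≤ width (2 * n) g}.ncard : ℝ) /
    ((Lp n).ncard : ℝ)

/-- `E_n[exp (f w)]` for the uniform polygon with perimeter `2 n` and width `w` -/
noncomputable def Zp (n : ℕ) (f : ℝ) : ℝ :=
  (∑ᶠ g ∈ Lp n, Real.exp (f * width (2 * n) g)) / ((Lp n).ncard : ℝ)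

/-- the mean width `E_n[w exp (f w)] / E_n[exp (f w)]` of the polygon pulled by the force `f` -/
noncomputable def W (n : ℕ) (f : ℝ) : ℝ :=
  (∑ᶠ g ∈ Lp n, (width (2 * n) g : ℝ) * Real.exp (f * width (2 * n) g)) /
    ∑ᶠ g ∈ Lp n, Real.exp (f * width (2 * n) g)

/-- `ω` is an `n`-step self-avoiding walk on `ℤ²` started at the origin. -/
def IsSAW (n : ℕ) (ω : Fin (n + 1) → ℤ × ℤ) : Prop :=
  ω 0 = (0, 0) ∧
  (∀ i : Fin n, |(ω i.succ).1 - (ω i.castSucc).1| + |(ω i.succ).2 - (ω i.castSucc).2| = 1) ∧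
  Function.Injective ω

/-- `c_n`: the number of `n`-step self-avoiding walks from the origin -/
noncomputable def c (n : ℕ) : ℕ := Nat.card {ω : Fin (n + 1) → ℤ × ℤ // IsSAW n ω}

/-- the partition function `∑_ω exp (f ω₁(n))` of the `n`-step self-avoiding walks pulled at the end
point by the horizontal force `f` -/
noncomputable def Zw (n : ℕ) (f : ℝ) : ℝ :=
  ∑ᶠ ω ∈ {ω : Fin (n + 1) → ℤ × ℤ | IsSAW n ω}, Real.exp (f * (ω (Fin.last n)).1)

theorem c_eq (n : ℕ) : c n = TH795.EP.c n := TH795.EP2.card_walks n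

theorem Zw_eq (n : ℕ) (f : ℝ) : Zw n f = Y981.L2.Z (f, 0) n := by
  unfold Zw
  rw [V11252.SAW.Z_hor]
  have e := TH795.EP2.image_eq n (fun _ => True) (fun _ => True) (fun _ _ => Iff.rfl)
  simp only [and_true] at e
  have e2 : {ω : Fin (n + 1) → ℤ × ℤ | IsSAW n ω} =
      TH795.EP2.ew n '' (TH795.EP.fs H981.Saw n : Set (List H981.St)) := e
  rw [e2, finsum_mem_image, finsum_mem_coe_finset]
  · apply Finset.sum_congr rfl
    intro w hw
    rw [TH795.EP.mem_fs] at hw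
    rw [TH795.EP2.ew_last n hw.2]
  · intro w hw w' hw' he
    rw [Finset.mem_coe, TH795.EP.mem_fs] at hw hw'
    exact TH795.EP2.ew_injOn n hw.2 hw'.2 he

theorem wide_eq (n : ℕ) (r : ℝ) : wide n r = Y981.L2.pw n r := rfl

theorem Zp_eq (n : ℕ) (f : ℝ) : Zp n f = V11252.SAW.Zp n f := rfl

theorem W_eq (n : ℕ) (f : ℝ) : W n f = V11252.SAW.Wp n f := rfl

/-- **Main result.** There is a function `Λ` with the following properties.
(1) There is `K` such that for all `n ≥ 2` and all forces `f ≥ 0`: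
`|log (Zw_n (f) / c_n) - n Λ (f)| ≤ K (log n)^2` (walks),
`|log Zp_n (f) - 2 n Λ (f / 2)| ≤ f + K (log n)^2` (polygons), and
`2 n Λ (f / 2) - f - K (log n)^2 ≤ f W_n (f) ≤ 2 n (Λ (f) - Λ (f / 2)) + 3 f + K (log n)^2`.
(2) Let `0 < θ < 1`.
(a) `P_n[w ≥ n ^ (θ + ε)] ≤ exp (-n ^ δ)` for large `n`, for every `ε > 0` and some
`δ = δ (ε) > 0`, if and only if `Λ (f) ≤ f ^ (1 / θ - ε)` for small `f > 0`, for every `ε > 0`, and
then for every `ε > 0` there is `f₀ > 0` with `W_n (f) / n ≤ f ^ (1 / θ - 1 - ε)` for all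
`0 < f < f₀` and `n ≥ max (2, f ^ (- 1 / θ))`.
(b) `P_n[w ≥ n ^ (θ - ε)] ≥ exp (-n ^ δ)` for large `n`, for all `ε, δ > 0`, if and only if
`Λ (f) ≥ f ^ (1 / θ + ε)` for small `f > 0`, for every `ε > 0`, and then for every `ε > 0` there is
`f₀ > 0` with `W_n (f) / n ≥ f ^ (1 / θ - 1 + ε)` for all `0 < f < f₀` and
`n ≥ max (2, f ^ (- (1 / θ + ε)))`. -/
theorem result : ∃ Λ : ℝ → ℝ,
    (∃ K : ℝ, ∀ n : ℕ, 2 ≤ n → ∀ f : ℝ, 0 ≤ f →
      |Real.log (Zw n f / c n) - n * Λ f| ≤ K * Real.log n ^ 2 ∧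
      |Real.log (Zp n f) - 2 * n * Λ (f / 2)| ≤ f + K * Real.log n ^ 2 ∧
      2 * n * Λ (f / 2) - f - K * Real.log n ^ 2 ≤ f * W n f ∧
      f * W n f ≤ 2 * n * (Λ f - Λ (f / 2)) + 3 * f + K * Real.log n ^ 2) ∧
    ∀ θ : ℝ, 0 < θ → θ < 1 →
      ((∀ ε : ℝ, 0 < ε → ∃ δ : ℝ, 0 < δ ∧ ∀ᶠ n : ℕ in atTop,
          wide n ((n : ℝ) ^ (θ + ε)) ≤ Real.exp (-(n : ℝ) ^ δ)) ↔
        ∀ ε : ℝ, 0 < ε → ∀ᶠ f in 𝓝[>] (0 : ℝ), Λ f ≤ f ^ (1 / θ - ε)) ∧
      ((∀ ε : ℝ, 0 < ε → ∃ δ : ℝ, 0 < δ ∧ ∀ᶠ n : ℕ in atTop,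
          wide n ((n : ℝ) ^ (θ + ε)) ≤ Real.exp (-(n : ℝ) ^ δ)) →
        ∀ ε : ℝ, 0 < ε → ∃ f₀ : ℝ, 0 < f₀ ∧ ∀ f : ℝ, 0 < f → f < f₀ → ∀ n : ℕ, 2 ≤ n →
          f ^ (-(1 / θ)) ≤ (n : ℝ) → W n f / n ≤ f ^ (1 / θ - 1 - ε)) ∧
      ((∀ ε : ℝ, 0 < ε → ∀ δ : ℝ, 0 < δ → ∀ᶠ n : ℕ in atTop,
          Real.exp (-(n : ℝ) ^ δ) ≤ wide n ((n : ℝ) ^ (θ - ε))) ↔
        ∀ ε : ℝ, 0 < ε → ∀ᶠ f in 𝓝[>] (0 : ℝ), f ^ (1 / θ + ε) ≤ Λ f) ∧
      ((∀ ε : ℝ, 0 < ε → ∀ δ : ℝ, 0 < δ → ∀ᶠ n : ℕ in atTop,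
          Real.exp (-(n : ℝ) ^ δ) ≤ wide n ((n : ℝ) ^ (θ - ε))) →
        ∀ ε : ℝ, 0 < ε → ∃ f₀ : ℝ, 0 < f₀ ∧ ∀ f : ℝ, 0 < f → f < f₀ → ∀ n : ℕ, 2 ≤ n →
          f ^ (-(1 / θ + ε)) ≤ (n : ℝ) → f ^ (1 / θ - 1 + ε) ≤ W n f / n) := by
  refine ⟨Y981.L2.psi, ?_, ?_⟩
  · obtain ⟨K1, hK1, h1⟩ := V11252.SAW.free_energy
    obtain ⟨K2, hK2, h2⟩ := V11252.SAW.poly_energy
    obtain ⟨K3, hK3, h3⟩ := V11252.SAW.poly_width
    refine ⟨K1 + K2 + K3, fun n hn f hf => ?_⟩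
    have p1 : 0 ≤ K1 * Real.log (n : ℝ) ^ 2 := by positivity
    have p2 : 0 ≤ K2 * Real.log (n : ℝ) ^ 2 := by positivity
    have p3 : 0 ≤ K3 * Real.log (n : ℝ) ^ 2 := by positivity
    have e1 : Y981.L2.psi f = Y981.L2.Lam (f, 0) := rfl
    have g1 := h1 n hn (f, 0)
    obtain ⟨g2, g3⟩ := h2 n hn f hf
    obtain ⟨g4, g5⟩ := h3 n hn f hf
    refine ⟨?_, ?_, ?_, ?_⟩
    · rw [Zw_eq, c_eq, e1]
      linarith
    · rw [Zp_eq, abs_le]
      constructor <;> linarith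
    · rw [W_eq]
      linarith
    · rw [W_eq]
      linarith
  · intro θ hθ hθ1
    simp only [wide_eq, W_eq]
    obtain ⟨K, hK, hw⟩ := V11252.SAW.poly_width_small
    refine ⟨?_, fun h ε hε => ?_, ?_, fun h ε hε => ?_⟩
    · rw [← V11252.SAW.fUp_iff]
      exact V11252.SAW.polyUp_iff hθ hθ1
    · exact V11252.SAW.pincus_upper_gen hθ ((V11252.SAW.polyUp_iff hθ hθ1).1 h) hε hK
        (D := fun f n => V11252.SAW.Wp n f) (fun n hn f hf0 hf1 => (hw n hn f hf0 hf1).2)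
    · rw [← V11252.SAW.fLow_iff]
      exact V11252.SAW.polyLow_iff hθ hθ1
    · exact V11252.SAW.pincus_lower_gen hθ ((V11252.SAW.polyLow_iff hθ hθ1).1 h) hε hK
        (D := fun f n => V11252.SAW.Wp n f) (fun n hn f hf0 hf1 => (hw n hn f hf0 hf1).1)

end Pool.Agent.Results.MP_c23e5f_co.PulledPolygons
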