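import Pool.Agent.H315.SAW.Narrow

/-!
# The small widths of the self-avoiding polygons on the square lattice

Two-sided bounds for the probability that the width of the uniform self-avoiding polygon is small,
in terms of the correlation length `ξ_m` of the self-avoiding walk at distance `1/m` from the
critical point, and explicit bounds for the exponential rate of the number of polygons of width at
most `k`.
-/

set_option autoImplicit false

namespace Pool.Agent.Results.MP_c23e5f_co.SmallWidths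

open Filter Topology

/-- `ω` is an `n`-step self-avoiding walk on `ℤ²` started at the origin. -/
def IsSAW (n : ℕ) (ω : Fin (n + 1) → ℤ × ℤ) : Prop :=
  ω 0 = (0, 0) ∧
  (∀ i : Fin n, |(ω i.succ).1 - (ω i.castSucc).1| + |(ω i.succ).2 - (ω i.castSucc).2| = 1) ∧
  Function.Injective ω

/-- `c_n`: the number of `n`-step self-avoiding walks from the origin -/
noncomputable def c (n : ℕ) : ℕ := Nat.card {ω : Fin (n + 1) → ℤ × ℤ // IsSAW n ω}

/-- `c_n(x)`: the number of `n`-step self-avoiding walks from the origin to `x` -/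
noncomputable def cx (n : ℕ) (x : ℤ × ℤ) : ℕ :=
  Nat.card {ω : Fin (n + 1) → ℤ × ℤ // IsSAW n ω ∧ ω (Fin.last n) = x}

/-- the two-point function `G_z(x) = ∑_n c_n(x) z^n` -/
noncomputable def G (z : ℝ) (x : ℤ × ℤ) : ℝ := ∑' n : ℕ, (cx n x : ℝ) * z ^ n

/-- a self-avoiding polygon of perimeter `m`, rooted at the origin and oriented: a closed
nearest-neighbour loop on `ℤ²` with `m` steps that visits no vertex twice -/
def IsLoop (m : ℕ) (f : ZMod m → ℤ × ℤ) : Prop :=
  f 0 = 0 ∧ Function.Injective f ∧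
    ∀ i : ZMod m, |(f (i + 1)).1 - (f i).1| + |(f (i + 1)).2 - (f i).2| = 1

/-- the width (horizontal extent) of a polygon -/
noncomputable def width (m : ℕ) (f : ZMod m → ℤ × ℤ) : ℕ :=
  sSup {w : ℕ | ∃ i j, w = ((f i).1 - (f j).1).natAbs}

/-- the probability that the width of the uniform polygon of perimeter `2 n` is at most `r` -/
noncomputable def narrow (n : ℕ) (r : ℝ) : ℝ :=
  ({f : ZMod (2 * n) → ℤ × ℤ | IsLoop (2 * n) f ∧ (width (2 * n) f : ℝ) ≤ r}.ncard : ℝ) /
    ({f : ZMod (2 * n) → ℤ × ℤ | IsLoop (2 * n) f}.ncard : ℝ)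

theorem c_eq (n : ℕ) : c n = TH795.EP.c n := TH795.EP2.card_walks n

theorem cx_eq (n : ℕ) (x : ℤ × ℤ) : cx n x = TH795.EP.a n x.1 x.2 := TH795.EP2.card_walks_to n x

theorem G_eq (z : ℝ) (k : ℕ) : G z ((k : ℤ), 0) = Y981.L2.Gz z k 0 := by
  unfold G Y981.L2.Gz
  apply tsum_congr
  intro n
  rw [cx_eq]

theorem width_bdd {L : ℕ} (hL : 1 ≤ L) (f : ZMod L → ℤ × ℤ) :
    BddAbove {w : ℕ | ∃ i j, w = ((f i).1 - (f j).1).natAbs} := by
  have : NeZero L := ⟨by omega⟩
  apply Set.Finite.bddAbove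
  apply Set.Finite.subset (Set.finite_range fun p : ZMod L × ZMod L => ((f p.1).1 - (f p.2).1).natAbs)
  rintro w ⟨i, j, rfl⟩
  exact ⟨(i, j), rfl⟩

theorem width_le {L : ℕ} {f : ZMod L → ℤ × ℤ} {k : ℕ} (h : ∀ i j, |(f i).1 - (f j).1| ≤ k) :
    width L f ≤ k := by
  unfold width
  refine csSup_le (s := {w : ℕ | ∃ i j, w = ((f i).1 - (f j).1).natAbs}) ⟨_, 0, 0, rfl⟩ ?_
  rintro w ⟨i, j, rfl⟩
  have := h i j
  rw [Int.abs_eq_natAbs] at this
  exact_mod_cast this

theorem of_width {L : ℕ} (hL : 1 ≤ L) {f : ZMod L → ℤ × ℤ} {k : ℕ} (h : width L f ≤ k)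
    (i j : ZMod L) : |(f i).1 - (f j).1| ≤ k := by
  have h1 : ((f i).1 - (f j).1).natAbs ≤ width L f := le_csSup (width_bdd hL f) ⟨i, j, rfl⟩
  rw [Int.abs_eq_natAbs]
  exact_mod_cast h1.trans h

theorem narrow_eq {n : ℕ} (hn : 1 ≤ n) (k : ℕ) : narrow n k =
    ({f : ZMod (2 * n) → ℤ × ℤ | H315.SAW.IsLoop (2 * n) f ∧ ∀ i j, |(f i).1 - (f j).1| ≤ k}.ncard : ℝ) /
      ({f : ZMod (2 * n) → ℤ × ℤ | H315.SAW.IsLoop (2 * n) f}.ncard : ℝ) := by
  unfold narrow
  congr 2
  congr 1
  ext f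
  constructor
  · rintro ⟨h1, h2⟩
    exact ⟨h1, of_width (by omega) (by exact_mod_cast h2)⟩
  · rintro ⟨h1, h2⟩
    exact ⟨h1, by exact_mod_cast width_le h2⟩

theorem loops_pos {n : ℕ} (hn : 2 ≤ n) :
    (0 : ℝ) < ({f : ZMod (2 * n) → ℤ × ℤ | H315.SAW.IsLoop (2 * n) f}.ncard : ℝ) := by
  obtain ⟨K, hK, h⟩ := H315.SAW.loops_low
  have hmu := H981.mu_pos
  exact lt_of_lt_of_le (by positivity) (h n hn)

/-- the lower bound at one scale -/
theorem narrow_ge {D M N : ℕ} (hM : 1 ≤ M) (hN : 2 ≤ N) {r E : ℝ} (hr : 3 * (D : ℝ) ≤ r)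
    (hE : E * ({f | H315.SAW.IsLoop (M * (2 * N)) f}.ncard : ℝ) ≤
      ({f | H315.SAW.IsLoop (M * (2 * N)) f ∧
        H315.SAW.FollowsC D M (2 * N) (H315.SAW.rc N) f}.ncard : ℝ)) :
    E ≤ narrow (M * N) r := by
  have hL2 : 2 * (M * N) = M * (2 * N) := by ring
  have hn2 : 2 ≤ M * N := by nlinarith
  have h0 := loops_pos hn2
  unfold narrow
  rw [hL2] at h0 ⊢
  change 0 < ({f : ZMod (M * (2 * N)) → ℤ × ℤ | IsLoop (M * (2 * N)) f}.ncard : ℝ) at h0
  rw [le_div_iff₀ h0]
  refine hE.trans ?_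
  have hLp : 1 ≤ M * (2 * N) := by nlinarith
  have hfin := (H315.SAW.loops_bound (L := M * (2 * N)) hLp).1
  have h3 : {f | H315.SAW.IsLoop (M * (2 * N)) f ∧
      H315.SAW.FollowsC D M (2 * N) (H315.SAW.rc N) f} ⊆
      {f : ZMod (M * (2 * N)) → ℤ × ℤ | IsLoop (M * (2 * N)) f ∧
      (width (M * (2 * N)) f : ℝ) ≤ r} := by
    rintro f ⟨hf1, hf2⟩
    refine ⟨hf1, ?_⟩
    have c1 := H315.SAW.rc_box (by omega) hN hf2
    have c2 : width (M * (2 * N)) f ≤ 3 * D := by
      apply width_le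
      intro i j
      have d1 := c1 i
      have d2 := c1 j
      push_cast
      rw [abs_le]
      constructor <;> linarith [d1.1, d1.2.1, d2.1, d2.2.1]
    have c3 : (width (M * (2 * N)) f : ℝ) ≤ 3 * D := by exact_mod_cast c2
    exact c3.trans hr
  exact_mod_cast Set.ncard_le_ncard h3 (hfin.subset fun f h => h.1)

/-- **Theorem.** Let `μ = lim c_n^(1/n)`; for `0 < z < 1/μ` the correlation length
`ξ(z) = (lim_k - (1/k) log G_z((k, 0)))^(-1)` of the self-avoiding walk exists and is positive and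
finite.
(1) There is `K` such that for all `m ≥ 2`, with `ξ_m = ξ(e^(-1/m) / μ)`:
(a) there is `2 m ≤ M ≤ 300 m^2` such that for all `N ≥ 2` the width of the uniform polygon of
perimeter `2 M N` is at most `K ξ_m (log m)^2` with probability at least `exp (- K N (log m)^3)`;
(b) if `K (k + 1) ξ_m (log m)^2 ≤ m`, then for all `n ≥ 2` the width of the uniform polygon of
perimeter `2 n` is at most `k` with probability at most
`exp (K (log n)^2 + (K - n / m) (log m)^2)`.
(2) There are `a, B > 0` such that for all large `k`: for all large `n` the width of the uniform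
polygon of perimeter `2 n` is at most `k` with probability at most
`exp (- n k^(- B log log k))`, and there is `M ≥ 1` such that for all multiples `n ≥ 2 M` of `M`
this probability is at least `exp (- n k^(- (1 + a / log log k)))`. -/
theorem result : ∃ (μ : ℝ) (ξ : ℝ → ℝ), 0 < μ ∧
    Tendsto (fun n : ℕ => (c n : ℝ) ^ (1 / (n : ℝ))) atTop (𝓝 μ) ∧
    (∀ z : ℝ, 0 < z → z < 1 / μ → 0 < ξ z ∧
      Tendsto (fun k : ℕ => - Real.log (G z ((k : ℤ), 0)) / k) atTop (𝓝 (1 / ξ z))) ∧
    (∃ K : ℝ, 0 < K ∧ ∀ m : ℕ, 2 ≤ m → ∀ x : ℝ, x = ξ (Real.exp (-1 / m) / μ) →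
      (∃ M : ℕ, 2 * m ≤ M ∧ M ≤ 300 * m ^ 2 ∧ ∀ N : ℕ, 2 ≤ N →
        Real.exp (-(K * N * Real.log m ^ 3)) ≤ narrow (M * N) (K * x * Real.log m ^ 2)) ∧
      ∀ k : ℕ, K * (k + 1) * x * Real.log m ^ 2 ≤ m → ∀ n : ℕ, 2 ≤ n →
        narrow n k ≤ Real.exp (K * Real.log n ^ 2 + (K - n / m) * Real.log m ^ 2)) ∧
    ∃ a B : ℝ, 0 < a ∧ 0 < B ∧ ∀ᶠ k : ℕ in atTop,
      (∀ᶠ n : ℕ in atTop,
        narrow n k ≤ Real.exp (-(n * (k : ℝ) ^ (-(B * Real.log (Real.log k)))))) ∧
      ∃ M : ℕ, 1 ≤ M ∧ ∀ n : ℕ, M ∣ n → 2 * M ≤ n →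
        Real.exp (-(n * (k : ℝ) ^ (-(1 + a / Real.log (Real.log k))))) ≤ narrow n k := by
  have hmu := H981.mu_pos
  obtain ⟨K1, hK1, h1⟩ := H315.SAW.poly_main
  obtain ⟨K2, hK2, h2⟩ := H315.SAW.narrow_upper
  obtain ⟨B, hB, h3⟩ := H315.SAW.narrow_explicit
  obtain ⟨a, ha, h4⟩ := H315.SAW.choice (K := 3 * K1) (by positivity)
  refine ⟨H981.mu, Y981.L2.xi, hmu, ?_, ?_, ⟨3 * K1 + K2, by positivity, fun m hm x hx => ?_⟩,
    a, B, ha, hB, ?_⟩
  · have h := H981.tendsto_root
    refine h.congr ?_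
    intro n
    rw [c_eq, TH795.EP.c_eq]
  · intro z hz hz1
    have he : 0 < -Real.log (z * H981.mu) := by
      have h1 : z * H981.mu < 1 := by rwa [lt_div_iff₀ hmu] at hz1
      have h2 := Real.log_neg (mul_pos hz hmu) h1
      linarith
    have hm := Y981.L2.mass_pos he
    constructor
    · unfold Y981.L2.xi
      positivity
    · have h := Y981.L2.G_tendsto hz hz1
      unfold Y981.L2.xi
      rw [one_div_one_div]
      refine h.congr ?_
      intro k
      rw [G_eq]
  · have hxi : x = 1 / H315.SAW.ms m := by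
      rw [hx]
      have e := Y981.L2.e_z (1 / (m : ℝ))
      have e2 : -(1 / (m : ℝ)) = -1 / m := by ring
      rw [e2] at e
      unfold Y981.L2.xi H315.SAW.ms
      rw [e]
    have hms := H315.SAW.ms_pos hm
    have hx0 : 0 < x := by rw [hxi]; positivity
    have e1 : x * Real.log m ^ 2 = Real.log m ^ 2 / H315.SAW.ms m := by rw [hxi]; ring
    obtain ⟨y, hy⟩ : ∃ y, y = x * Real.log m ^ 2 := ⟨_, rfl⟩
    have hlm : 0 < Real.log (m : ℝ) := Real.log_pos (by exact_mod_cast (by omega : 1 < m))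
    have hy0 : 0 < y := by rw [hy]; positivity
    constructor
    · obtain ⟨D, M, a1, a2, a3, a4, a5⟩ := h1 m hm
      refine ⟨M, a3, a4, fun N hN => ?_⟩
      obtain ⟨-, b1⟩ := a5 (2 * N) (H315.SAW.rc N) (by omega) (H315.SAW.rc_loop hN)
      rw [← e1, ← hy] at a2
      have b2 := narrow_ge (by omega : 1 ≤ M) hN (r := (3 * K1 + K2) * x * Real.log m ^ 2) (by
        rw [mul_assoc, ← hy]
        have : 0 ≤ K2 * y := by positivity
        linarith) b1
      refine le_trans (Real.exp_le_exp.2 ?_) b2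
      apply neg_le_neg
      push_cast
      have : 0 ≤ (K1 + K2) * N * Real.log m ^ 3 := by positivity
      linarith
    · intro k hk n hn
      have b1 := h2 m hm k (by
        rw [← e1, ← hy]
        have e3 : (3 * K1 + K2) * ((k : ℝ) + 1) * x * Real.log m ^ 2 =
          (3 * K1 + K2) * ((k : ℝ) + 1) * y := by rw [hy]; ring
        rw [e3] at hk
        have : 0 ≤ 3 * K1 * ((k : ℝ) + 1) * y := by positivity
        linarith) n hn
      rw [narrow_eq (by omega), div_le_iff₀ (loops_pos hn)]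
      refine b1.trans ?_
      apply mul_le_mul_of_nonneg_right _ (loops_pos hn).le
      apply Real.exp_le_exp.2
      have c1 : 0 ≤ 3 * K1 * Real.log n ^ 2 := by positivity
      have c2 : 0 ≤ 3 * K1 * Real.log m ^ 2 := by positivity
      linarith
  · filter_upwards [h3, h4] with k hk3 hk4
    constructor
    · filter_upwards [hk3, eventually_ge_atTop 2] with n hn hn2
      rw [narrow_eq (by omega), div_le_iff₀ (loops_pos hn2)]
      exact hn
    · obtain ⟨m, hm, hm1, hm2⟩ := hk4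
      obtain ⟨D, M, a1, a2, a3, a4, a5⟩ := h1 m hm
      refine ⟨M, by omega, ?_⟩
      rintro n ⟨N, rfl⟩ hN'
      have hM : 1 ≤ M := by omega
      have hN : 2 ≤ N := by
        by_contra hcon
        have : M * N ≤ M * 1 := Nat.mul_le_mul_left M (by omega)
        omega
      obtain ⟨-, b1⟩ := a5 (2 * N) (H315.SAW.rc N) (by omega) (H315.SAW.rc_loop hN)
      have b2 := narrow_ge hM hN (r := k) (by
        have : 3 * K1 * Real.log m ^ 2 / H315.SAW.ms m = 3 * (K1 * (Real.log m ^ 2 / H315.SAW.ms m)) := by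
          ring
        rw [this] at hm1
        linarith) b1
      refine le_trans (Real.exp_le_exp.2 ?_) b2
      apply neg_le_neg
      have hm0 : (0 : ℝ) < m := by exact_mod_cast (by omega : 0 < m)
      have hlm : 0 < Real.log (m : ℝ) := Real.log_pos (by exact_mod_cast (by omega : 1 < m))
      have hMm : 2 * (m : ℝ) ≤ M := by exact_mod_cast a3
      have hN0 : (0 : ℝ) < N := by exact_mod_cast (by omega : 0 < N)
      push_cast
      calc K1 * (2 * N) * Real.log m ^ 3 ≤ 3 * K1 * Real.log m ^ 3 * N * 2 := by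
            have : 0 ≤ K1 * N * Real.log m ^ 3 := by positivity
            linarith
        _ = (2 * m * N) * (3 * K1 * Real.log m ^ 3 / m) := by field_simp
        _ ≤ (M * N) * (k : ℝ) ^ (-(1 + a / Real.log (Real.log k))) := by
            apply mul_le_mul _ hm2 (by positivity) (by positivity)
            gcongr

end Pool.Agent.Results.MP_c23e5f_co.SmallWidths
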