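import Pool.Agent.V11237.SXT.Shape

set_option autoImplicit false

/-!
# Self-avoiding polygons on `ℤ²` of every width to height ratio

For every `t > 0` and every scale `L` there is a perimeter `m` between `L / K` and `K L ^ 2` for which the
uniform self-avoiding polygon of perimeter `m` has width `L (1 ± ε)` and height `t L (1 ± ε)`, with
probability at least `exp (- K (log m) ^ 2)`.
-/

namespace Pool.Agent.Results.MP_c23e5f_co.WidthAndHeight

/-- a closed nearest-neighbour loop on `ℤ²` with `m` steps, rooted at the origin and oriented,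
that visits no vertex twice -/
def IsLoop (m : ℕ) (f : ZMod m → ℤ × ℤ) : Prop :=
  f 0 = 0 ∧ Function.Injective f ∧
    ∀ i : ZMod m, |(f (i + 1)).1 - (f i).1| + |(f (i + 1)).2 - (f i).2| = 1

/-- the width (horizontal extent) of a loop -/
noncomputable def width (m : ℕ) (f : ZMod m → ℤ × ℤ) : ℕ :=
  sSup {w : ℕ | ∃ i j, w = ((f i).1 - (f j).1).natAbs}

/-- the height (vertical extent) of a loop -/
noncomputable def height (m : ℕ) (f : ZMod m → ℤ × ℤ) : ℕ :=
  sSup {w : ℕ | ∃ i j, w = ((f i).2 - (f j).2).natAbs}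

/-- the proportion of the self-avoiding polygons of perimeter `m` with the property `P` -/
noncomputable def prob (m : ℕ) (P : (ZMod m → ℤ × ℤ) → Prop) : ℝ :=
  ({f : ZMod m → ℤ × ℤ | IsLoop m f ∧ P f}.ncard : ℝ) / ({f : ZMod m → ℤ × ℤ | IsLoop m f}.ncard : ℝ)

/-- **Polygons of every width to height ratio at every scale.** -/
theorem result (t : ℝ) (ht : 0 < t) (ε : ℝ) (hε : 0 < ε) : ∃ K : ℝ, ∀ L : ℝ, K ≤ L →
    ∃ m : ℕ, L / K ≤ m ∧ (m : ℝ) ≤ K * L ^ 2 ∧
      Real.exp (-(K * Real.log m ^ 2)) ≤ prob m (fun f =>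
        |(width m f : ℝ) - L| ≤ ε * L ∧ |(height m f : ℝ) - t * L| ≤ ε * L) := by
  obtain ⟨K, hK, h⟩ := Pool.Agent.V11237.SXT.shape_prob t ht ε hε
  refine ⟨K, ?_⟩
  intro L hL
  obtain ⟨m, m2, m3, m4, m5⟩ := h L hL
  refine ⟨m, ?_, m4, ?_⟩
  · rw [div_le_iff₀ (by linarith)]
    linarith
  · exact m5.trans (Pool.Agent.V11237.SXT.lprob_mono (by omega) fun f _ hf => ⟨hf.1, hf.2.1⟩)

end Pool.Agent.Results.MP_c23e5f_co.WidthAndHeight
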